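import Pool.Agent.H14.ES.Stm

/-!
Crew ES (`MP_9214e0_lc`), part MIN: two cocycles which are uniformly close are cohomologous.
-/

set_option autoImplicit false

namespace H18.ES

open MeasureTheory Set H14.ES
open scoped ENNReal

/-- an invariant vector near an almost invariant one -/
lemma exists_invariant {H : Type*} [NormedAddCommGroup H] [InnerProductSpace ℝ H] [CompleteSpace H]
    {F : Type*} [Nonempty F] (V : F → H →ₗᵢ[ℝ] H) (v0 : H) (r : ℝ)
    (hV : ∀ k k', ∃ l, V k (V k' v0) = V l v0) (hr : ∀ k, ‖V k v0 - v0‖ ≤ r) :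
    ∃ v : H, (∀ k, V k v = v) ∧ ‖v‖ ≤ ‖v0‖ ∧ ‖v - v0‖ ≤ r := by
  set O : Set H := Set.range (fun k => V k v0) with hO
  set K : Set H := closure (convexHull ℝ O) with hK
  have hOK : O ⊆ K := (subset_convexHull ℝ O).trans subset_closure
  have hne : K.Nonempty := ⟨V (Classical.arbitrary F) v0, hOK ⟨_, rfl⟩⟩
  have hcomp : IsComplete K := isClosed_closure.isComplete
  have hconv : Convex ℝ K := (convex_convexHull ℝ O).closure
  obtain ⟨v, hvK, hv⟩ := exists_norm_eq_iInf_of_complete_convex hne hcomp hconv (0 : H)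
  have hmin : ∀ w ∈ K, ‖v‖ ≤ ‖w‖ := by
    intro w hw
    have h1 : (⨅ w : K, ‖(0 : H) - w‖) ≤ ‖(0 : H) - (⟨w, hw⟩ : K)‖ :=
      ciInf_le ⟨0, by rintro _ ⟨u, rfl⟩; exact norm_nonneg _⟩ (⟨w, hw⟩ : K)
    rw [← hv] at h1
    simpa using h1
  have hmap : ∀ k, ∀ w ∈ K, V k w ∈ K := by
    intro k
    have hcl : IsClosed ((V k) ⁻¹' K) := isClosed_closure.preimage (V k).continuous
    have hcv : Convex ℝ ((V k) ⁻¹' K) := hconv.linear_preimage (V k).toLinearMap
    have hsub : O ⊆ (V k) ⁻¹' K := by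
      rintro _ ⟨k', rfl⟩
      obtain ⟨l, hl⟩ := hV k k'
      show V k (V k' v0) ∈ K
      rw [hl]
      exact hOK ⟨l, rfl⟩
    exact closure_minimal (convexHull_min hsub hcv) hcl
  refine ⟨v, ?_, ?_, ?_⟩
  · intro k
    have hu := hmap k v hvK
    have hn : ‖V k v‖ = ‖v‖ := (V k).norm_map v
    have hmid : ((1 : ℝ) / 2) • v + ((1 : ℝ) / 2) • V k v ∈ K :=
      hconv hvK hu (by norm_num) (by norm_num) (by norm_num)
    have h1 := hmin _ hmid
    rw [← smul_add, norm_smul] at h1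
    have h2 := parallelogram_law_with_norm ℝ v (V k v)
    rw [hn] at h2
    have h3 : ‖v‖ * 2 ≤ ‖v + V k v‖ := by
      have : ‖((1 : ℝ) / 2)‖ = 1 / 2 := by norm_num
      rw [this] at h1; linarith
    have h4 : ‖v - V k v‖ * ‖v - V k v‖ ≤ 0 := by
      nlinarith [norm_nonneg v, norm_nonneg (v + V k v)]
    have h5 : ‖v - V k v‖ = 0 := by
      nlinarith [norm_nonneg (v - V k v)]
    exact (sub_eq_zero.mp (norm_eq_zero.mp h5)).symm
  · have h1 := hmin _ (hOK ⟨Classical.arbitrary F, rfl⟩)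
    simpa using h1
  · have hsub : K ⊆ Metric.closedBall v0 r := by
      refine closure_minimal (convexHull_min ?_ (convex_closedBall v0 r)) Metric.isClosed_closedBall
      rintro _ ⟨k, rfl⟩
      simp only [Metric.mem_closedBall, dist_eq_norm]
      exact hr k
    have := hsub hvK
    simpa [dist_eq_norm] using this

lemma lintegral_sq_le {X : Type*} [MeasurableSpace X] {m : Measure X} (G : Lp ℝ 2 m) (r : ℝ)
    (h : ‖G‖ ≤ r) : ∫⁻ p, ‖G p‖ₑ ^ 2 ∂m ≤ ENNReal.ofReal (r ^ 2) := by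
  have hr : 0 ≤ r := le_trans (norm_nonneg _) h
  have h1 : ‖G‖ₑ = eLpNorm G 2 m := Lp.enorm_def G
  have h2 : eLpNorm G 2 m = (∫⁻ p, ‖G p‖ₑ ^ (2 : ℝ) ∂m) ^ (1 / (2 : ℝ)) := by
    rw [eLpNorm_eq_lintegral_rpow_enorm_toReal (by norm_num) (by norm_num)]
    simp
  have h3 : ‖G‖ₑ ≤ ENNReal.ofReal r := by
    rw [← ofReal_norm]
    exact ENNReal.ofReal_le_ofReal h
  have h4 : ∫⁻ p, ‖G p‖ₑ ^ 2 ∂m = ‖G‖ₑ ^ 2 := by
    rw [h1, h2, ← ENNReal.rpow_natCast, ← ENNReal.rpow_mul]
    norm_num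
  rw [h4, ENNReal.ofReal_pow hr]
  gcongr

lemma map_count_equiv {Λ : Type*} [Countable Λ] [MeasurableSpace Λ] [DiscreteMeasurableSpace Λ]
    (e : Λ ≃ Λ) : Measure.map (fun l => e l) (Measure.count : Measure Λ) = Measure.count := by
  ext s hs
  rw [Measure.map_apply (measurable_of_countable _) hs, Measure.count_apply hs,
    Measure.count_apply (MeasurableSet.of_discrete)]
  have h1 : (fun l => e l) ⁻¹' s = e.symm '' s := by
    rw [Equiv.image_symm_eq_preimage]
  rw [h1, e.symm.injective.encard_image]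

theorem t_MIN : S_MIN := by
  intro W _ μW _ F _ _ T hT1 hTmul hTmp herg Λ _ _ _ _ α1 α2 hα1 hα2 hc1 hc2 hclose
  classical
  set m : Measure (W × Λ) := μW.prod Measure.count with hm
  let g : F → W → Λ → Λ := fun k ξ l => α1 k ξ * l * (α2 k ξ)⁻¹
  have hgm : ∀ k, Measurable (Function.uncurry (g k)) := by
    intro k
    have h1 : Measurable (fun p : W × Λ => (α1 k p.1, p.2, α2 k p.1)) :=
      ((hα1 k).comp measurable_fst).prodMk (measurable_snd.prodMk ((hα2 k).comp measurable_fst))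
    have h2 : Measurable (fun q : Λ × Λ × Λ => q.1 * q.2.1 * (q.2.2)⁻¹) := measurable_of_countable _
    exact h2.comp h1
  let S : F → W × Λ → W × Λ := fun k p => (T k p.1, g k p.1 p.2)
  have hS : ∀ k, MeasurePreserving (S k) m m := by
    intro k
    refine (hTmp k).skew_product (hgm k) (Filter.Eventually.of_forall fun ξ => ?_)
    exact map_count_equiv ((Equiv.mulLeft (α1 k ξ)).trans (Equiv.mulRight ((α2 k ξ)⁻¹)))
  have hcomp : ∀ k k', S (k * k') =ᵐ[m] S k ∘ S k' := by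
    intro k k'
    have h1 := (Measure.quasiMeasurePreserving_fst (μ := μW)
      (ν := (Measure.count : Measure Λ))).ae (hc1 k k')
    have h2 := (Measure.quasiMeasurePreserving_fst (μ := μW)
      (ν := (Measure.count : Measure Λ))).ae (hc2 k k')
    filter_upwards [h1, h2] with p hp1 hp2
    simp only [S, g, Function.comp, hTmul, hp1, hp2]
    simp [mul_assoc, mul_inv_rev]
  let V : F → Lp ℝ 2 m →ₗᵢ[ℝ] Lp ℝ 2 m := fun k => Lp.compMeasurePreservingₗᵢ ℝ (S k) (hS k)
  have hVcoe : ∀ (k : F) (G : Lp ℝ 2 m), ⇑(V k G) =ᵐ[m] ⇑G ∘ S k := fun k G =>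
    Lp.coeFn_compMeasurePreserving G (hS k)
  have hVmul : ∀ (k k' : F) (G : Lp ℝ 2 m), V k (V k' G) = V (k' * k) G := by
    intro k k' G
    apply Lp.ext
    have a1 := hVcoe k (V k' G)
    have a2 : ⇑(V k' G) ∘ S k =ᵐ[m] (⇑G ∘ S k') ∘ S k :=
      (hS k).quasiMeasurePreserving.ae_eq_comp (hVcoe k' G)
    have a3 := hVcoe (k' * k) G
    filter_upwards [a1, a2, a3, hcomp k' k] with p h1 h2 h3 h4
    rw [h1, h2, h3]
    simp only [Function.comp] at h4 ⊢
    rw [h4]
  set s : Set (W × Λ) := {p | p.2 = 1} with hs_def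
  have hs : MeasurableSet s := measurable_snd (MeasurableSet.singleton (1 : Λ))
  have hms : m s = 1 := by
    have : s = (Set.univ : Set W) ×ˢ ({1} : Set Λ) := by
      ext p; simp [hs_def]
    rw [this, hm, Measure.prod_prod]
    simp
  have hfin : m s ≠ ∞ := by rw [hms]; exact ENNReal.one_ne_top
  set G0 : Lp ℝ 2 m := indicatorConstLp 2 hs hfin (1 : ℝ) with hG0
  have hdist : ∀ k, ‖V k G0 - G0‖ ≤ Real.sqrt (1 / 50) := by
    intro k
    have hsym : m (symmDiff (S k ⁻¹' s) s) ≤ ENNReal.ofReal (1 / 50) := by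
      have hmeas : MeasurableSet (symmDiff (S k ⁻¹' s) s) :=
        (hs.preimage (hS k).measurable).symmDiff hs
      rw [hm, Measure.prod_apply hmeas]
      have hA : MeasurableSet {ξ | α1 k ξ ≠ α2 k ξ} :=
        (measurableSet_eq_fun (hα1 k) (hα2 k)).compl
      calc ∫⁻ ξ, Measure.count (Prod.mk ξ ⁻¹' (symmDiff (S k ⁻¹' s) s)) ∂μW
          ≤ ∫⁻ ξ, Set.indicator {ξ | α1 k ξ ≠ α2 k ξ} (fun _ => (2 : ℝ≥0∞)) ξ ∂μW := by
            refine lintegral_mono fun ξ => ?_
            by_cases hξ : α1 k ξ = α2 k ξ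
            · have hempty : Prod.mk ξ ⁻¹' (symmDiff (S k ⁻¹' s) s) = (∅ : Set Λ) := by
                ext l
                simp only [Set.mem_preimage, Set.mem_symmDiff, Set.mem_empty_iff_false, iff_false,
                  hs_def, Set.mem_ofPred_eq, S, g, hξ, conj_eq_one_iff]
                tauto
              rw [hempty]; simp
            · have hsub : Prod.mk ξ ⁻¹' (symmDiff (S k ⁻¹' s) s) ⊆
                  ({1} : Set Λ) ∪ {(α1 k ξ)⁻¹ * α2 k ξ} := by
                intro l hl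
                simp only [Set.mem_preimage, Set.mem_symmDiff, hs_def, Set.mem_ofPred_eq, S, g] at hl
                rcases hl with ⟨h1, _⟩ | ⟨h1, _⟩
                · right
                  simp only [Set.mem_singleton_iff]
                  have : α1 k ξ * l = α2 k ξ := by
                    rwa [mul_inv_eq_one] at h1
                  rw [← this]; simp
                · left; exact h1
              have hind : Set.indicator {ξ | α1 k ξ ≠ α2 k ξ} (fun _ => (2 : ℝ≥0∞)) ξ = 2 := by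
                rw [Set.indicator_of_mem]; exact hξ
              rw [hind]
              calc Measure.count (Prod.mk ξ ⁻¹' (symmDiff (S k ⁻¹' s) s))
                  ≤ Measure.count (({1} : Set Λ) ∪ {(α1 k ξ)⁻¹ * α2 k ξ}) := measure_mono hsub
                _ ≤ Measure.count ({1} : Set Λ) +
                      Measure.count ({(α1 k ξ)⁻¹ * α2 k ξ} : Set Λ) := measure_union_le _ _
                _ = 2 := by simp [Measure.count_singleton, one_add_one_eq_two]
        _ = 2 * μW {ξ | α1 k ξ ≠ α2 k ξ} := by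
            rw [lintegral_indicator_const hA]
        _ ≤ 2 * (1 / 100) := by
            gcongr
            exact hclose k
        _ = ENNReal.ofReal (1 / 50) := by
            have h100 : (1 / 100 : ℝ≥0∞) = ENNReal.ofReal (1 / 100) := by
              rw [ENNReal.ofReal_div_of_pos (by norm_num)]; norm_num
            have h2' : (2 : ℝ≥0∞) = ENNReal.ofReal 2 := by norm_num
            rw [h100, h2', ← ENNReal.ofReal_mul (by norm_num)]
            norm_num
    have e1 : V k G0 = indicatorConstLp 2 (hs.preimage (hS k).measurable)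
        (by rwa [(hS k).measure_preimage hs.nullMeasurableSet]) (1 : ℝ) :=
      Lp.indicatorConstLp_compMeasurePreserving hs hfin 1 (hS k)
    rw [e1, ← dist_eq_norm, hG0, dist_indicatorConstLp_eq_norm,
      norm_indicatorConstLp (by norm_num) (by norm_num)]
    have h2 : m.real (symmDiff (S k ⁻¹' s) s) ≤ 1 / 50 := by
      exact ENNReal.toReal_le_of_le_ofReal (by norm_num) hsym
    rw [Real.sqrt_eq_rpow]
    simp only [norm_one, one_mul, ENNReal.toReal_ofNat]
    exact Real.rpow_le_rpow measureReal_nonneg h2 (by norm_num)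
  obtain ⟨G, hGinv, hGnorm, hGdist⟩ := exists_invariant V G0 (Real.sqrt (1 / 50))
    (fun k k' => ⟨k' * k, hVmul k k' G0⟩) hdist
  have hG0norm : ‖G0‖ = 1 := by
    rw [hG0, norm_indicatorConstLp (by norm_num) (by norm_num)]
    simp [Measure.real, hms]
  rw [hG0norm] at hGnorm
  have hgmeas : Measurable (fun p : W × Λ => G p) := (Lp.stronglyMeasurable G).measurable
  -- the sum of the squares
  have hI1 : ∫⁻ p, ‖G p‖ₑ ^ 2 ∂m ≤ 1 := by
    have := lintegral_sq_le G 1 hGnorm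
    simpa using this
  have hI2 : ∫⁻ p, ‖G p - s.indicator (fun _ => (1 : ℝ)) p‖ₑ ^ 2 ∂m ≤ ENNReal.ofReal (1 / 50) := by
    have h1 := lintegral_sq_le (G - G0) _ hGdist
    rw [Real.sq_sqrt (by norm_num)] at h1
    refine le_trans (le_of_eq ?_) h1
    refine lintegral_congr_ae ?_
    filter_upwards [Lp.coeFn_sub G G0, (indicatorConstLp_coeFn : G0 =ᵐ[m] _)] with p hp1 hp2
    rw [hp1, Pi.sub_apply, hp2]
  have hinv : ∀ k, ∀ᵐ ξ ∂μW, ∀ l, G (T k ξ, α1 k ξ * l * (α2 k ξ)⁻¹) = G (ξ, l) := by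
    intro k
    have h1 : ∀ᵐ p ∂m, G (S k p) = G p := by
      have h2 := hVcoe k G
      rw [hGinv k] at h2
      filter_upwards [h2] with p hp
      exact hp.symm
    have h3 := Measure.ae_ae_of_ae_prod h1
    filter_upwards [h3] with ξ hξ
    intro l
    rw [ae_iff_of_countable] at hξ
    exact hξ l (by simp)
  generalize hγ : (⇑G : W × Λ → ℝ) = γ at hgmeas hI1 hI2 hinv
  let N : W → ℝ≥0∞ := fun ξ => ∑' l, ‖γ (ξ, l)‖ₑ ^ 2
  have hNmeas : Measurable N := by
    refine Measurable.tsum fun l => ?_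
    exact ((hgmeas.comp (measurable_id.prodMk measurable_const)).enorm).pow_const 2
  have hNint : ∫⁻ ξ, N ξ ∂μW ≤ 1 := by
    refine le_trans (le_of_eq ?_) hI1
    rw [hm, lintegral_prod _ (by fun_prop)]
    refine lintegral_congr fun ξ => ?_
    rw [lintegral_count]
  have hNinv : ∀ k, ∀ᵐ ξ ∂μW, N (T k ξ) = N ξ := by
    intro k
    filter_upwards [hinv k] with ξ hξ
    show ∑' l, ‖γ (T k ξ, l)‖ₑ ^ 2 = ∑' l, ‖γ (ξ, l)‖ₑ ^ 2
    rw [← Equiv.tsum_eq ((Equiv.mulLeft (α1 k ξ)).trans (Equiv.mulRight ((α2 k ξ)⁻¹)))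
      (fun l => ‖γ (T k ξ, l)‖ₑ ^ 2)]
    refine tsum_congr fun l => ?_
    simp only [Equiv.trans_apply, Equiv.coe_mulLeft, Equiv.coe_mulRight]
    rw [hξ l]
  have hN1 : ∀ᵐ ξ ∂μW, N ξ ≤ 1 := by
    have hB : MeasurableSet {ξ | 1 < N ξ} := measurableSet_lt measurable_const hNmeas
    rcases herg _ hB (fun k => by
      filter_upwards [hNinv k] with ξ hξ
      apply propext
      show 1 < N (T k ξ) ↔ 1 < N ξ
      rw [hξ]) with h0 | h0
    · rw [ae_iff]
      simpa [not_le] using h0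
    · exfalso
      have hall : ∀ᵐ ξ ∂μW, 1 < N ξ := by
        rw [ae_iff]
        exact (prob_compl_eq_zero_iff hB).mpr h0
      have hlt : ∫⁻ _, (1 : ℝ≥0∞) ∂μW < ∫⁻ ξ, N ξ ∂μW :=
        lintegral_strict_mono (IsProbabilityMeasure.ne_zero μW) hNmeas.aemeasurable (by simp) hall
      simp only [lintegral_one, measure_univ] at hlt
      exact absurd hlt (not_lt.mpr hNint)
  -- the set where some value is large
  have hA : MeasurableSet {ξ | ∃ l, (3 / 4 : ℝ) < γ (ξ, l)} := by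
    have : {ξ | ∃ l, (3 / 4 : ℝ) < γ (ξ, l)} = ⋃ l, {ξ | (3 / 4 : ℝ) < γ (ξ, l)} := by
      ext ξ; simp
    rw [this]
    exact MeasurableSet.iUnion fun l =>
      measurableSet_lt measurable_const (hgmeas.comp (measurable_id.prodMk measurable_const))
  have hAinv : ∀ k, T k ⁻¹' {ξ | ∃ l, (3 / 4 : ℝ) < γ (ξ, l)} =ᵐ[μW]
      {ξ | ∃ l, (3 / 4 : ℝ) < γ (ξ, l)} := by
    intro k
    filter_upwards [hinv k] with ξ hξ
    apply propext
    show (∃ l, (3 / 4 : ℝ) < γ (T k ξ, l)) ↔ ∃ l, (3 / 4 : ℝ) < γ (ξ, l)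
    constructor
    · rintro ⟨l, hl⟩
      refine ⟨(α1 k ξ)⁻¹ * l * α2 k ξ, ?_⟩
      rw [← hξ]
      simpa [mul_assoc] using hl
    · rintro ⟨l, hl⟩
      exact ⟨_, by rw [hξ l]; exact hl⟩
  have hA1 : ∀ᵐ ξ ∂μW, ∃ l, (3 / 4 : ℝ) < γ (ξ, l) := by
    rcases herg _ hA hAinv with h0 | h0
    · exfalso
      have hall : ∀ᵐ ξ ∂μW, ¬ ∃ l, (3 / 4 : ℝ) < γ (ξ, l) := by
        rw [ae_iff]
        simpa using h0
      have h1 : ENNReal.ofReal (1 / 16) ≤
          ∫⁻ p, ‖γ p - s.indicator (fun _ => (1 : ℝ)) p‖ₑ ^ 2 ∂m := by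
        rw [hm, lintegral_prod _ (by
          have : Measurable (s.indicator (fun _ => (1 : ℝ))) := measurable_const.indicator hs
          fun_prop)]
        have h2 : ∫⁻ _, ENNReal.ofReal (1 / 16) ∂μW = ENNReal.ofReal (1 / 16) := by simp
        rw [← h2]
        refine lintegral_mono_ae ?_
        filter_upwards [hall] with ξ hξ
        rw [lintegral_count]
        refine le_trans ?_ (ENNReal.le_tsum (1 : Λ))
        have h3 : s.indicator (fun _ => (1 : ℝ)) (ξ, (1 : Λ)) = 1 := by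
          rw [Set.indicator_of_mem]; simp [hs_def]
        rw [h3]
        have h4 : γ (ξ, 1) ≤ 3 / 4 := by
          by_contra hcon
          exact hξ ⟨1, not_le.mp hcon⟩
        rw [← ofReal_norm, ← ENNReal.ofReal_pow (norm_nonneg _)]
        apply ENNReal.ofReal_le_ofReal
        rw [Real.norm_eq_abs, sq_abs]
        nlinarith
      have h5 := le_trans h1 hI2
      rw [ENNReal.ofReal_le_ofReal_iff (by norm_num)] at h5
      norm_num at h5
    · rw [ae_iff]
      have := (prob_compl_eq_zero_iff hA).mpr h0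
      exact this
  have huniq : ∀ ξ, N ξ ≤ 1 → ∀ l l', (3 / 4 : ℝ) < γ (ξ, l) → (3 / 4 : ℝ) < γ (ξ, l') → l = l' := by
    intro ξ hξ l l' hl hl'
    by_contra hne
    have h1 : ∑ i ∈ ({l, l'} : Finset Λ), ‖γ (ξ, i)‖ₑ ^ 2 ≤ N ξ := ENNReal.sum_le_tsum _
    rw [Finset.sum_pair hne] at h1
    have h2 : ∀ i, (3 / 4 : ℝ) < γ (ξ, i) → ENNReal.ofReal (9 / 16) ≤ ‖γ (ξ, i)‖ₑ ^ 2 := by
      intro i hi
      rw [← ofReal_norm, ← ENNReal.ofReal_pow (norm_nonneg _)]
      apply ENNReal.ofReal_le_ofReal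
      rw [Real.norm_eq_abs, sq_abs]
      nlinarith
    have h3 : ENNReal.ofReal (9 / 16) + ENNReal.ofReal (9 / 16) ≤ 1 :=
      le_trans (add_le_add (h2 l hl) (h2 l' hl')) (le_trans h1 hξ)
    rw [← ENNReal.ofReal_add (by norm_num) (by norm_num), ← ENNReal.ofReal_one,
      ENNReal.ofReal_le_ofReal_iff (by norm_num)] at h3
    norm_num at h3
  obtain ⟨e, he⟩ := exists_surjective_nat Λ
  let P : ℕ → W → Prop := fun n ξ => (3 / 4 : ℝ) < γ (ξ, e n) ∨ ¬ ∃ l, (3 / 4 : ℝ) < γ (ξ, l)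
  have hPex : ∀ ξ, ∃ n, P n ξ := by
    intro ξ
    by_cases h : ∃ l, (3 / 4 : ℝ) < γ (ξ, l)
    · obtain ⟨l, hl⟩ := h
      obtain ⟨n, rfl⟩ := he l
      exact ⟨n, Or.inl hl⟩
    · exact ⟨0, Or.inr h⟩
  have hPm : ∀ n, MeasurableSet {ξ | P n ξ} := by
    intro n
    have h1 : MeasurableSet {ξ | (3 / 4 : ℝ) < γ (ξ, e n)} :=
      measurableSet_lt measurable_const (hgmeas.comp (measurable_id.prodMk measurable_const))
    exact h1.union hA.compl
  refine ⟨fun ξ => e (Nat.find (hPex ξ)), ?_, ?_⟩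
  · exact Measurable.find (f := fun n _ => e n) (fun n => measurable_const) hPm hPex
  · intro k
    have hφ : ∀ ξ, (∃ l, (3 / 4 : ℝ) < γ (ξ, l)) → (3 / 4 : ℝ) < γ (ξ, e (Nat.find (hPex ξ))) := by
      intro ξ hξ
      rcases Nat.find_spec (hPex ξ) with h | h
      · exact h
      · exact absurd hξ h
    have hT := (hTmp k).quasiMeasurePreserving
    filter_upwards [hinv k, hA1, hT.ae hA1, hT.ae hN1] with ξ h1 h2 h3 h4
    refine huniq _ h4 _ _ (hφ _ h3) ?_
    rw [h1]
    exact hφ _ h2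

end H18.ES
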